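import Pool.Agent.H360R2.RG.Stubs

set_option autoImplicit false

/-! # r-gaps: truncated Chernoff bound (helper273) -/

open Filter Topology Set MeasureTheory

namespace RGap

open LG (IsQ)

theorem chern_nonneg (N : ℕ) (t q : ℕ → ℝ) (hq : IsQ N t q) (ht : ∀ m, 0 ≤ t m) :
    ∀ n, n ≤ N → 0 ≤ q n := by
  intro n
  induction n using Nat.strong_induction_on with
  | _ n ih =>
    intro hn
    rcases Nat.eq_zero_or_pos n with h0 | h0
    · rw [h0, hq.1]; norm_num
    · have h1 := hq.2 n h0 hn
      have h2 : 0 ≤ ∑ m ∈ Finset.Icc 1 n, t m * q (n - m) := by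
        refine Finset.sum_nonneg fun m hm => mul_nonneg (ht m) (ih (n - m) ?_ ?_)
        · rw [Finset.mem_Icc] at hm; omega
        · omega
      rw [← h1] at h2
      have h3 : (0 : ℝ) < n := by exact_mod_cast h0
      exact nonneg_of_mul_nonneg_right h2 h3

theorem chern_deriv (N M : ℕ) (t q : ℕ → ℝ) (hq : IsQ N t q) (ht : ∀ m, 0 ≤ t m)
    (hM : ∀ m, M < m → t m = 0) (θ : ℝ) :
    ∑ n ∈ Finset.range (N + 1), q n * (n * Real.exp (θ * n)) ≤
      (∑ m ∈ Finset.Icc 1 M, t m * Real.exp (θ * m)) *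
        ∑ n ∈ Finset.range (N + 1), q n * Real.exp (θ * n) := by
  have hq0 := chern_nonneg N t q hq ht
  have h1 : ∀ n ∈ Finset.range (N + 1), q n * (n * Real.exp (θ * n)) =
      ∑ m ∈ Finset.Icc 1 M, if m ≤ n then (t m * Real.exp (θ * m)) *
        (q (n - m) * Real.exp (θ * ((n - m : ℕ) : ℝ))) else 0 := by
    intro n hn
    rw [Finset.mem_range] at hn
    have h2 : (n : ℝ) * q n = ∑ m ∈ Finset.Icc 1 n, t m * q (n - m) := by
      rcases Nat.eq_zero_or_pos n with h0 | h0
      · subst h0
        simp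
      · exact hq.2 n h0 (by omega)
    have h3 : q n * (n * Real.exp (θ * n)) = ((n : ℝ) * q n) * Real.exp (θ * n) := by ring
    rw [h3, h2, Finset.sum_mul, ← Finset.sum_filter_of_ne (p := fun m => m ≤ M)]
    · rw [← Finset.sum_filter]
      have h4 : (Finset.Icc 1 n).filter (fun m => m ≤ M) = (Finset.Icc 1 M).filter (fun m => m ≤ n) := by
        ext m
        simp only [Finset.mem_filter, Finset.mem_Icc]
        tauto
      rw [h4]
      refine Finset.sum_congr rfl fun m hm => ?_
      rw [Finset.mem_filter] at hm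
      have h5 : Real.exp (θ * n) = Real.exp (θ * m) * Real.exp (θ * ((n - m : ℕ) : ℝ)) := by
        rw [← Real.exp_add, Nat.cast_sub hm.2]
        congr 1
        ring
      rw [h5]
      ring
    · intro m _ hne
      by_contra hc
      push Not at hc
      apply hne
      rw [hM m hc]
      ring
  rw [Finset.sum_congr rfl h1, Finset.sum_comm, Finset.sum_mul]
  refine Finset.sum_le_sum fun m _ => ?_
  rw [← Finset.sum_filter, ← Finset.mul_sum]
  apply mul_le_mul_of_nonneg_left _ (mul_nonneg (ht m) (Real.exp_pos _).le)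
  have h6 : ∑ n ∈ (Finset.range (N + 1)).filter (fun n => m ≤ n),
      q (n - m) * Real.exp (θ * ((n - m : ℕ) : ℝ)) =
      ∑ j ∈ ((Finset.range (N + 1)).filter (fun n => m ≤ n)).image (fun n => n - m),
        q j * Real.exp (θ * (j : ℝ)) := by
    rw [Finset.sum_image]
    intro a ha b hb hab
    simp only [Finset.coe_filter, Finset.mem_range, Set.mem_ofPred_eq] at ha hb
    simp only at hab
    omega
  rw [h6]
  apply Finset.sum_le_sum_of_subset_of_nonneg
  · intro j hj
    simp only [Finset.mem_image, Finset.mem_filter, Finset.mem_range] at hj ⊢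
    obtain ⟨n, ⟨hn, _⟩, rfl⟩ := hj
    omega
  · intro j hj _
    rw [Finset.mem_range] at hj
    exact mul_nonneg (hq0 j (by omega)) (Real.exp_pos _).le

theorem chern_B (N M : ℕ) (t q : ℕ → ℝ) (hq : IsQ N t q) (ht : ∀ m, 0 ≤ t m)
    (hM : ∀ m, M < m → t m = 0) (θ : ℝ) (hθ : 0 ≤ θ) :
    ∑ n ∈ Finset.range (N + 1), q n * Real.exp (θ * n) ≤
      Real.exp (∑ m ∈ Finset.Icc 1 M, t m * ((Real.exp (θ * m) - 1) / m)) *
        ∑ n ∈ Finset.range (N + 1), q n := by
  set B : ℝ → ℝ := fun θ => ∑ n ∈ Finset.range (N + 1), q n * Real.exp (θ * n) with hB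
  set S : ℝ → ℝ := fun θ => ∑ m ∈ Finset.Icc 1 M, t m * ((Real.exp (θ * m) - 1) / m) with hS
  have hexp : ∀ (a x : ℝ), HasDerivAt (fun y : ℝ => Real.exp (y * a)) (a * Real.exp (x * a)) x := by
    intro a x
    have h := ((hasDerivAt_id x).mul_const a).exp
    simp only [id, one_mul] at h
    rw [mul_comm a]
    exact h
  have dB : ∀ x, HasDerivAt B (∑ n ∈ Finset.range (N + 1), q n * (n * Real.exp (x * n))) x := by
    intro x
    apply HasDerivAt.fun_sum
    intro n _
    exact (hexp n x).const_mul (q n)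
  have dS : ∀ x, HasDerivAt S (∑ m ∈ Finset.Icc 1 M, t m * Real.exp (x * m)) x := by
    intro x
    apply HasDerivAt.fun_sum
    intro m hm
    rw [Finset.mem_Icc] at hm
    have hm0 : (m : ℝ) ≠ 0 := by
      have : m ≠ 0 := by omega
      exact_mod_cast this
    have h := ((((hexp m x).sub_const 1).div_const (m : ℝ)).const_mul (t m))
    have e : (m : ℝ) * Real.exp (x * m) / m = Real.exp (x * m) := by field_simp
    rw [e] at h
    exact h
  have dg : ∀ x, HasDerivAt (fun x => B x * Real.exp (-S x))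
      ((∑ n ∈ Finset.range (N + 1), q n * (n * Real.exp (x * n))) * Real.exp (-S x) +
        B x * (Real.exp (-S x) * -(∑ m ∈ Finset.Icc 1 M, t m * Real.exp (x * m)))) x := by
    intro x
    exact (dB x).mul ((dS x).neg.exp)
  have hanti : AntitoneOn (fun x => B x * Real.exp (-S x)) (Set.Ici 0) := by
    apply antitoneOn_of_deriv_nonpos (convex_Ici 0)
    · exact fun x _ => (dg x).continuousAt.continuousWithinAt
    · exact fun x _ => (dg x).differentiableAt.differentiableWithinAt
    · intro x _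
      rw [(dg x).deriv]
      have h1 := chern_deriv N M t q hq ht hM x
      have h2 : 0 < Real.exp (-S x) := Real.exp_pos _
      have h3 := mul_le_mul_of_nonneg_right h1 h2.le
      have h4 : B x = ∑ n ∈ Finset.range (N + 1), q n * Real.exp (x * n) := rfl
      rw [h4]
      linarith
  have h1 := hanti (Set.mem_Ici.mpr le_rfl) (Set.mem_Ici.mpr hθ) hθ
  simp only at h1
  have hB0 : B 0 = ∑ n ∈ Finset.range (N + 1), q n := by
    simp only [hB]
    simp
  have hS0 : S 0 = 0 := by
    simp only [hS]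
    simp
  rw [hB0, hS0, neg_zero, Real.exp_zero, mul_one] at h1
  have h2 : B θ = B θ * Real.exp (-S θ) * Real.exp (S θ) := by
    rw [mul_assoc, ← Real.exp_add]
    simp
  calc B θ = B θ * Real.exp (-S θ) * Real.exp (S θ) := h2
    _ ≤ (∑ n ∈ Finset.range (N + 1), q n) * Real.exp (S θ) :=
        mul_le_mul_of_nonneg_right h1 (Real.exp_pos _).le
    _ = _ := mul_comm _ _

theorem CHERN_proof : CHERN := by
  intro N M t q hq ht hM
  have hq0 := chern_nonneg N t q hq ht
  have hpos : 0 < ∑ n ∈ Finset.range (N + 1), q n := by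
    refine Finset.sum_pos' (fun n hn => hq0 n ?_) ⟨0, by simp, ?_⟩
    · rw [Finset.mem_range] at hn; omega
    · rw [hq.1]; norm_num
  refine ⟨hq0, hpos, ?_⟩
  intro X θ hθ hθM
  have hS : ∑ m ∈ Finset.Icc 1 M, t m * ((Real.exp (θ * m) - 1) / m) ≤
      θ * ∑ m ∈ Finset.Icc 1 M, t m + θ ^ 2 * M * ∑ m ∈ Finset.Icc 1 M, t m := by
    rw [Finset.mul_sum, Finset.mul_sum, ← Finset.sum_add_distrib]
    refine Finset.sum_le_sum fun m hm => ?_
    rw [Finset.mem_Icc] at hm
    have hm0 : (0 : ℝ) < m := by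
      have : 0 < m := by omega
      exact_mod_cast this
    have hmM : (m : ℝ) ≤ M := by exact_mod_cast hm.2
    have hx0 : 0 ≤ θ * m := by positivity
    have hx1 : θ * m ≤ 1 := (mul_le_mul_of_nonneg_left hmM hθ).trans hθM
    have he : Real.exp (θ * m) ≤ 1 + θ * m + (θ * m) ^ 2 := by
      have h := Real.abs_exp_sub_one_sub_id_le (x := θ * m) (by rw [abs_of_nonneg hx0]; exact hx1)
      have h2 := (abs_le.mp h).2
      linarith
    have h3 : (Real.exp (θ * m) - 1) / m ≤ θ + θ ^ 2 * M := by
      rw [div_le_iff₀ hm0]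
      have h4 : θ ^ 2 * m * m ≤ θ ^ 2 * M * m := by
        apply mul_le_mul_of_nonneg_right _ hm0.le
        exact mul_le_mul_of_nonneg_left hmM (sq_nonneg _)
      nlinarith [he, h4]
    calc t m * ((Real.exp (θ * m) - 1) / m) ≤ t m * (θ + θ ^ 2 * M) :=
          mul_le_mul_of_nonneg_left h3 (ht m)
      _ = _ := by ring
  have h1 : ∑ n ∈ (Finset.range (N + 1)).filter (fun n => X < n), q n ≤
      Real.exp (-(θ * X)) * ∑ n ∈ Finset.range (N + 1), q n * Real.exp (θ * n) := by
    rw [Finset.mul_sum]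
    refine le_trans ?_ (Finset.sum_le_sum_of_subset_of_nonneg
      (Finset.filter_subset (fun n => X < n) _) ?_)
    · refine Finset.sum_le_sum fun n hn => ?_
      rw [Finset.mem_filter, Finset.mem_range] at hn
      have hqn := hq0 n (by omega)
      have h2 : 1 ≤ Real.exp (-(θ * X)) * Real.exp (θ * n) := by
        rw [← Real.exp_add]
        apply Real.one_le_exp
        have : (X : ℝ) ≤ n := by exact_mod_cast hn.2.le
        have := mul_le_mul_of_nonneg_left this hθ
        linarith
      calc q n = q n * 1 := (mul_one _).symm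
        _ ≤ q n * (Real.exp (-(θ * X)) * Real.exp (θ * n)) := mul_le_mul_of_nonneg_left h2 hqn
        _ = _ := by ring
    · intro n hn _
      rw [Finset.mem_range] at hn
      exact mul_nonneg (Real.exp_pos _).le (mul_nonneg (hq0 n (by omega)) (Real.exp_pos _).le)
  have h2 := chern_B N M t q hq ht hM θ hθ
  calc _ ≤ Real.exp (-(θ * X)) * ∑ n ∈ Finset.range (N + 1), q n * Real.exp (θ * n) := h1
    _ ≤ Real.exp (-(θ * X)) * (Real.exp (∑ m ∈ Finset.Icc 1 M, t m * ((Real.exp (θ * m) - 1) / m)) *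
        ∑ n ∈ Finset.range (N + 1), q n) := mul_le_mul_of_nonneg_left h2 (Real.exp_pos _).le
    _ ≤ Real.exp (-(θ * X)) * (Real.exp (θ * ∑ m ∈ Finset.Icc 1 M, t m +
        θ ^ 2 * M * ∑ m ∈ Finset.Icc 1 M, t m) * ∑ n ∈ Finset.range (N + 1), q n) := by
        apply mul_le_mul_of_nonneg_left _ (Real.exp_pos _).le
        apply mul_le_mul_of_nonneg_right _ hpos.le
        exact Real.exp_le_exp.mpr hS
    _ = _ := by
        rw [← mul_assoc, ← Real.exp_add]
        congr 2
        ring

end RGap
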