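import Pool.Agent.H360R2.RG.Stubs

set_option autoImplicit false

/-! # r-gaps: the asymptotically optimal resonator (helper273) -/

open Filter Topology Set MeasureTheory

namespace RGap

open LG (IsQ SF SM)

theorem id2_smI (w c : ℝ) (m : ℕ) (hw : 0 ≤ w) (hc : 0 ≤ c) (hm : 1 ≤ m) :
    |smI w c m| ≤ Real.pi * c * w := by
  have hm0 : (0 : ℝ) < m := by exact_mod_cast hm
  have hpc : 0 ≤ Real.pi * c := mul_nonneg Real.pi_pos.le hc
  have h1 : ‖∫ u in (m * w * Real.exp (-1 / m))..(m * w), Real.sin (Real.pi * c * u) / u‖ ≤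
      Real.pi * c * |m * w - m * w * Real.exp (-1 / m)| := by
    apply intervalIntegral.norm_integral_le_of_norm_le_const
    intro u _
    rw [Real.norm_eq_abs, abs_div]
    by_cases hu : u = 0
    · rw [hu]; simpa using hpc
    · rw [div_le_iff₀ (abs_pos.mpr hu)]
      calc |Real.sin (Real.pi * c * u)| ≤ |Real.pi * c * u| := Real.abs_sin_le_abs
        _ = Real.pi * c * |u| := by rw [abs_mul, abs_of_nonneg hpc]
  rw [Real.norm_eq_abs] at h1
  refine h1.trans (mul_le_mul_of_nonneg_left ?_ hpc)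
  have h2 : -1 / (m : ℝ) + 1 ≤ Real.exp (-1 / m) := Real.add_one_le_exp _
  have h3 : Real.exp (-1 / (m : ℝ)) ≤ 1 := by
    rw [Real.exp_le_one_iff]
    exact div_nonpos_of_nonpos_of_nonneg (by norm_num) hm0.le
  have hmw : 0 ≤ m * w := by positivity
  have h4 : m * w - m * w * Real.exp (-1 / m) = m * w * (1 - Real.exp (-1 / m)) := by ring
  rw [h4, abs_of_nonneg (mul_nonneg hmw (by linarith))]
  calc m * w * (1 - Real.exp (-1 / m)) ≤ m * w * (1 / m) := by
        apply mul_le_mul_of_nonneg_left _ hmw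
        have : -1 / (m : ℝ) = -(1 / m) := by ring
        linarith
    _ = w := by field_simp

/-- the counting part: `SM` is close to `SF` -/
theorem id2_SM (B0 M0 : ℕ) (hMB : M0 ≤ B0) (q : ℕ → ℝ) (hq : ∀ n, n ≤ B0 → 0 ≤ q n) (D : ℝ)
    (hD : ∑ n ∈ (Finset.range (B0 + 1)).filter (fun n => B0 - M0 < n), q n ≤ D) (m : ℕ)
    (hm : m ≤ M0) :
    |SF B0 (fun _ => 1) q - SM B0 (fun _ => 1) q m| ≤ D := by
  have h1 : SF B0 (fun _ => 1) q = ∑ n ∈ Finset.range (B0 + 1), q n := by
    unfold SF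
    exact Finset.sum_congr rfl fun n _ => by ring
  have h2 : SM B0 (fun _ => 1) q m = ∑ n ∈ Finset.range (B0 + 1 - m), q n := by
    unfold SM
    exact Finset.sum_congr rfl fun n _ => by ring
  rw [h1, h2]
  have h3 : ∑ n ∈ Finset.range (B0 + 1 - m), q n ≤ ∑ n ∈ Finset.range (B0 + 1), q n := by
    apply Finset.sum_le_sum_of_subset_of_nonneg
    · intro n hn
      rw [Finset.mem_range] at hn ⊢
      omega
    · intro n hn _
      rw [Finset.mem_range] at hn
      exact hq n (by omega)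
  have h4 : ∑ n ∈ (Finset.range (B0 + 1)).filter (fun n => ¬ B0 - M0 < n), q n ≤
      ∑ n ∈ Finset.range (B0 + 1 - m), q n := by
    apply Finset.sum_le_sum_of_subset_of_nonneg
    · intro n hn
      rw [Finset.mem_filter, Finset.mem_range] at hn
      rw [Finset.mem_range]
      omega
    · intro n hn _
      rw [Finset.mem_range] at hn
      exact hq n (by omega)
  have h5 := Finset.sum_filter_add_sum_filter_not (Finset.range (B0 + 1)) (fun n => B0 - M0 < n) q
  rw [abs_of_nonneg (by linarith)]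
  linarith

theorem IDEAL2_of (h1 : CHERN) (h2 : RSUM) (h3 : SINCL) : IDEAL2 := by
  intro ε hε
  set e : ℝ := min ε 1 / 20 with he
  have he0 : 0 < e := by
    have : 0 < min ε 1 := lt_min hε one_pos
    rw [he]; positivity
  have he1 : e ≤ 1 / 20 := by
    have : min ε 1 ≤ 1 := min_le_right _ _
    rw [he]; linarith
  have he2 : 20 * e ≤ ε := by
    have : min ε 1 ≤ ε := min_le_left _ _
    rw [he]; linarith
  have hpi := Real.pi_pos
  have hpi3 := Real.pi_gt_three
  obtain ⟨A, hA, hJ⟩ : ∃ A : ℝ, 0 < A ∧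
      Real.pi / 2 * (1 - e) ≤ ∫ y in (0 : ℝ)..(Real.pi * A), Real.sinc y ^ 2 := by
    have hlt : Real.pi / 2 * (1 - e) < Real.pi / 2 := by nlinarith
    obtain ⟨Y, hY1, hY2⟩ := ((h3.1.eventually (lt_mem_nhds hlt)).and
      (eventually_ge_atTop (1 : ℝ))).exists
    refine ⟨Y / Real.pi, by positivity, ?_⟩
    rw [mul_div_cancel₀ Y hpi.ne']
    exact hY1.le
  have hJ2 : ∫ y in (0 : ℝ)..(Real.pi * A), Real.sinc y ^ 2 ≤ Real.pi / 2 :=
    h3.2 _ (by positivity)
  set J : ℝ := ∫ y in (0 : ℝ)..(Real.pi * A), Real.sinc y ^ 2 with hJdef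
  refine ⟨1 + 16 * A / e + 256 * A ^ 2 / e ^ 3, by positivity, ?_⟩
  intro c hc
  have hcA1 : 0 ≤ 16 * A / e := by positivity
  have hcA2 : 0 ≤ 256 * A ^ 2 / e ^ 3 := by positivity
  have hc1 : 1 ≤ c := by linarith
  have hc0 : 0 < c := by linarith
  have hc2 : 16 * A ≤ c * e := by
    have : 16 * A / e ≤ c := by linarith
    rwa [div_le_iff₀ he0] at this
  have hc3 : 256 * A ^ 2 ≤ c * e ^ 3 := by
    have : 256 * A ^ 2 / e ^ 3 ≤ c := by linarith
    rwa [div_le_iff₀ (by positivity)] at this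
  set κ : ℝ := e / 4 with hκ
  have hκ0 : 0 < κ := by rw [hκ]; positivity
  have hκ1 : κ < 1 / 2 := by rw [hκ]; linarith
  obtain ⟨R1, R2⟩ := h2 κ c A hκ0 hκ1 hc0 hA
  have hl1 : J < J + e / 4 := by linarith
  have hl2 : J - e < J := by linarith
  obtain ⟨B0, ⟨g1, g2⟩, g3⟩ := (((R1.eventually (gt_mem_nhds hl1)).and
    (R2.eventually (lt_mem_nhds hl2))).and
    (eventually_ge_atTop (⌈c / A⌉₊ + 1))).exists
  have hB1 : 1 ≤ B0 := by omega
  have hB0 : (0 : ℝ) < B0 := by exact_mod_cast hB1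
  have hBc : c / A ≤ B0 := by
    refine (Nat.le_ceil _).trans ?_
    exact_mod_cast (by omega : ⌈c / A⌉₊ ≤ B0)
  set w : ℝ := (1 - κ) / (2 * (B0 : ℝ)) with hw
  have hw0 : 0 < w := by
    rw [hw]
    have : 0 < 1 - κ := by linarith
    positivity
  have hwB : w * B0 = (1 - κ) / 2 := by rw [hw]; field_simp
  set M0 : ℕ := ⌊A / (c * w)⌋₊ with hM0
  have hcw : 0 < c * w := by positivity
  have hM0le : (M0 : ℝ) ≤ A / (c * w) := Nat.floor_le (by positivity)
  have hM0A : (M0 : ℝ) * (c * w) ≤ A := by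
    rwa [le_div_iff₀ hcw] at hM0le
  have hM1 : 1 ≤ M0 := by
    apply Nat.le_floor
    rw [Nat.cast_one, le_div_iff₀ hcw, one_mul]
    rw [div_le_iff₀ hA] at hBc
    have h4 : c * (w * B0) ≤ (B0 * A) * (1 / 2) := by
      rw [hwB]
      have h5 : (1 - κ) / 2 ≤ 1 / 2 := by linarith
      calc c * ((1 - κ) / 2) ≤ c * (1 / 2) := mul_le_mul_of_nonneg_left h5 hc0.le
        _ ≤ (B0 * A) * (1 / 2) := mul_le_mul_of_nonneg_right hBc (by norm_num)
    have h6 : (c * w) * B0 ≤ A * B0 := by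
      have : 0 ≤ (B0 : ℝ) * A := by positivity
      linarith
    exact le_of_mul_le_mul_right h6 hB0
  have hM1' : (1 : ℝ) ≤ M0 := by exact_mod_cast hM1
  have hMc : (M0 : ℝ) * c ≤ 4 * A * B0 := by
    have h4 : (M0 : ℝ) * c * (w * B0) ≤ A * B0 := by
      calc (M0 : ℝ) * c * (w * B0) = ((M0 : ℝ) * (c * w)) * B0 := by ring
        _ ≤ A * B0 := mul_le_mul_of_nonneg_right hM0A hB0.le
    rw [hwB] at h4
    have h5 : (M0 : ℝ) * c * (1 / 4) ≤ (M0 : ℝ) * c * ((1 - κ) / 2) := by
      apply mul_le_mul_of_nonneg_left _ (by positivity)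
      linarith
    linarith
  have hMB : (M0 : ℝ) ≤ e / 4 * B0 := by
    have h4 : 4 * A * B0 ≤ (e / 4 * B0) * c := by
      have := mul_le_mul_of_nonneg_right hc2 hB0.le
      linarith
    exact le_of_mul_le_mul_right (hMc.trans h4) hc0
  have hMBn : M0 ≤ B0 := by
    have : (M0 : ℝ) ≤ B0 := by nlinarith
    exact_mod_cast this
  set μ : ℝ := 1 - e with hμ
  have hμ0 : 0 < μ := by rw [hμ]; linarith
  have hμ1 : μ ≤ 1 := by rw [hμ]; linarith
  set r : ℝ := Real.sqrt (μ * c) with hr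
  have hμc : 0 < μ * c := by positivity
  have hr0 : 0 < r := Real.sqrt_pos.mpr hμc
  have hr2 : r ^ 2 = μ * c := Real.sq_sqrt hμc.le
  set σ : ℕ → ℝ := fun m => if m ≤ M0 then Real.sinc (Real.pi * c * (m * w)) else 0 with hσ
  have hσ1 : ∀ m, |σ m| ≤ 1 := by
    intro m
    simp only [hσ]
    split_ifs
    · exact Real.abs_sinc_le_one _
    · simp
  refine ⟨κ, B0, r, fun m => |σ m|, fun m => if 0 ≤ σ m then 1 else -1, hκ0, hκ1, hB1, hr0,
    fun m => ⟨abs_nonneg _, hσ1 m⟩, ?_, ?_⟩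
  · intro m
    by_cases h : 0 ≤ σ m
    · left; simp only [h, if_true]
    · right; simp only [h, if_false]
  have hsV : ∀ m, (if 0 ≤ σ m then (1 : ℝ) else -1) * |σ m| = σ m := by
    intro m
    by_cases h : 0 ≤ σ m
    · rw [if_pos h, abs_of_nonneg h, one_mul]
    · rw [if_neg h, abs_of_neg (not_le.mp h)]; ring
  intro q hq
  -- the sum of the `t m`
  set t : ℕ → ℝ := fun m => if 2 ≤ m then r ^ 2 * |σ m| ^ 2 else 0 with ht
  have ht0 : ∀ m, 0 ≤ t m := by
    intro m
    simp only [ht]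
    split_ifs <;> positivity
  have htM : ∀ m, M0 < m → t m = 0 := by
    intro m hm
    simp only [ht, hσ, if_neg (not_le.mpr hm)]
    simp
  obtain ⟨hq0, hSFpos, hch⟩ := h1 B0 M0 t q hq ht0 htM
  have hSF : SF B0 (fun _ => 1) q = ∑ n ∈ Finset.range (B0 + 1), q n := by
    unfold SF
    exact Finset.sum_congr rfl fun n _ => by ring
  set S2 : ℝ := ∑ m ∈ Finset.Icc 2 M0, Real.sinc (Real.pi * c * (m * w)) ^ 2 with hS2
  have hτ : ∑ m ∈ Finset.Icc 1 M0, t m = μ * c * S2 := by
    rw [hS2, Finset.mul_sum]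
    symm
    rw [← Finset.sum_subset (Finset.Icc_subset_Icc_left (by norm_num : 1 ≤ 2))]
    · refine Finset.sum_congr rfl fun m hm => ?_
      rw [Finset.mem_Icc] at hm
      simp only [ht, hσ, if_pos hm.1, if_pos hm.2, sq_abs, hr2]
    · intro m hm hm2
      rw [Finset.mem_Icc] at hm hm2
      have : m = 1 := by omega
      subst this
      simp [ht]
  set τ : ℝ := ∑ m ∈ Finset.Icc 1 M0, t m with hτdef
  have hτ0 : 0 ≤ τ := Finset.sum_nonneg fun m _ => ht0 m
  have hτB : τ ≤ (1 - e / 2) * B0 := by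
    have h4 : (Real.pi * w) * τ ≤ μ * (Real.pi / 2 + e / 4) := by
      have h5 : (Real.pi * w) * τ = μ * (w * (Real.pi * c) * S2) := by rw [hτ]; ring
      rw [h5]
      apply mul_le_mul_of_nonneg_left _ hμ0.le
      linarith
    have h6 : (Real.pi * w) * ((1 - e / 2) * B0) = Real.pi * ((1 - κ) / 2) * (1 - e / 2) := by
      rw [← hwB]; ring
    have h7 : μ * (Real.pi / 2 + e / 4) ≤ Real.pi * ((1 - κ) / 2) * (1 - e / 2) := by
      rw [hμ, hκ]
      nlinarith [mul_pos he0 he0, mul_pos he0 hpi, mul_pos (mul_pos he0 he0) hpi,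
        mul_pos he0 (show (0 : ℝ) < Real.pi - 3 by linarith)]
    have h8 : (Real.pi * w) * τ ≤ (Real.pi * w) * ((1 - e / 2) * B0) := by
      rw [h6]; exact h4.trans h7
    exact le_of_mul_le_mul_left h8 (by positivity)
  -- Chernoff
  set θ : ℝ := e / 8 / M0 with hθ
  have hθ0 : 0 ≤ θ := by rw [hθ]; positivity
  have hθM : θ * M0 = e / 8 := by rw [hθ]; field_simp
  have hD := hch (B0 - M0) θ hθ0 (by rw [hθM]; linarith)
  have hXr : ((B0 - M0 : ℕ) : ℝ) = B0 - M0 := Nat.cast_sub hMBn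
  set p : ℝ := Real.exp (-(e ^ 2 * c / (256 * A))) with hp
  have hexp : -(θ * ((B0 - M0 : ℕ) : ℝ)) + θ * τ + θ ^ 2 * M0 * τ ≤ -(e ^ 2 * c / (256 * A)) := by
    have h4 : -(θ * ((B0 - M0 : ℕ) : ℝ)) + θ * τ + θ ^ 2 * M0 * τ =
        θ * (-(B0 - M0 : ℝ) + τ + (θ * M0) * τ) := by rw [hXr]; ring
    rw [h4, hθM]
    have h5 : -(B0 - M0 : ℝ) + τ + (e / 8) * τ ≤ -(e / 8) * B0 := by
      have h6 : (e / 8) * τ ≤ (e / 8) * B0 := by
        apply mul_le_mul_of_nonneg_left _ (by positivity)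
        nlinarith
      nlinarith
    have h7 : e ^ 2 * c / (256 * A) ≤ θ * (e / 8 * B0) := by
      rw [hθ, div_le_iff₀ (by positivity)]
      have h8 : e / 8 / (M0 : ℝ) * (e / 8 * B0) * (256 * A) = e ^ 2 * (4 * A * B0) / M0 := by
        field_simp
        ring
      rw [h8, le_div_iff₀ (by positivity)]
      have h9 := mul_le_mul_of_nonneg_left hMc (sq_nonneg e)
      linarith
    have h10 := mul_le_mul_of_nonneg_left h5 hθ0
    linarith
  have hDp : ∑ n ∈ (Finset.range (B0 + 1)).filter (fun n => B0 - M0 < n), q n ≤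
      p * SF B0 (fun _ => 1) q := by
    rw [hSF]
    refine hD.trans (mul_le_mul_of_nonneg_right ?_ hSFpos.le)
    exact Real.exp_le_exp.mpr hexp
  have hp0 : 0 < p := Real.exp_pos _
  have hpA : p * A ≤ e := by
    set y : ℝ := e ^ 2 * c / (256 * A) with hy
    have hy0 : 0 < y := by positivity
    have h4 : p * y ≤ 1 := by
      have h5 : y ≤ Real.exp y := by
        have := Real.add_one_le_exp y
        linarith
      calc p * y ≤ p * Real.exp y := mul_le_mul_of_nonneg_left h5 hp0.le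
        _ = 1 := by rw [hp, ← Real.exp_add]; simp
    have h6 : A ≤ e * y := by
      rw [hy, mul_div_assoc', le_div_iff₀ (by positivity)]
      nlinarith [hc3]
    calc p * A ≤ p * (e * y) := mul_le_mul_of_nonneg_left h6 hp0.le
      _ = e * (p * y) := by ring
      _ ≤ e * 1 := mul_le_mul_of_nonneg_left h4 he0.le
      _ = e := mul_one e
  -- the main sum
  have hSFpos' : 0 < SF B0 (fun _ => 1) q := by rw [hSF]; exact hSFpos
  set F : ℝ := SF B0 (fun _ => 1) q with hF
  refine ⟨hSFpos', ?_⟩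
  have hsum : ∑ m ∈ Finset.Icc 2 B0, (if 0 ≤ σ m then (1 : ℝ) else -1) *
      (|σ m| * smI w c m * SM B0 (fun _ => 1) q m) =
      ∑ m ∈ Finset.Icc 2 M0, (Real.sinc (Real.pi * c * (m * w)) * smI w c m) *
        SM B0 (fun _ => 1) q m := by
    symm
    rw [← Finset.sum_subset (Finset.Icc_subset_Icc_right hMBn)]
    · refine Finset.sum_congr rfl fun m hm => ?_
      rw [Finset.mem_Icc] at hm
      have h4 := hsV m
      have h5 : σ m = Real.sinc (Real.pi * c * (m * w)) := by simp only [hσ, if_pos hm.2]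
      calc Real.sinc (Real.pi * c * (m * w)) * smI w c m * SM B0 (fun _ => 1) q m
          = ((if 0 ≤ σ m then (1 : ℝ) else -1) * |σ m|) * smI w c m *
            SM B0 (fun _ => 1) q m := by rw [h4, h5]
        _ = _ := by ring
    · intro m hm hm2
      rw [Finset.mem_Icc] at hm hm2
      have h5 : σ m = 0 := by
        simp only [hσ]
        rw [if_neg (by omega)]
      rw [h5]
      simp
  rw [hsum]
  have hlow : (J - e) * F - (Real.pi * A) * (p * F) ≤
      ∑ m ∈ Finset.Icc 2 M0, (Real.sinc (Real.pi * c * (m * w)) * smI w c m) *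
        SM B0 (fun _ => 1) q m := by
    have h4 : ∀ m ∈ Finset.Icc 2 M0,
        (Real.sinc (Real.pi * c * (m * w)) * smI w c m) * F - (Real.pi * c * w) * (p * F) ≤
        (Real.sinc (Real.pi * c * (m * w)) * smI w c m) * SM B0 (fun _ => 1) q m := by
      intro m hm
      rw [Finset.mem_Icc] at hm
      have h5 := id2_SM B0 M0 hMBn q hq0 (p * F) hDp m hm.2
      have h6 := id2_smI w c m hw0.le hc0.le (by omega)
      have h7 : |Real.sinc (Real.pi * c * (m * w)) * smI w c m| ≤ Real.pi * c * w := by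
        rw [abs_mul]
        calc |Real.sinc (Real.pi * c * (m * w))| * |smI w c m| ≤ 1 * (Real.pi * c * w) :=
              mul_le_mul (Real.abs_sinc_le_one _) h6 (abs_nonneg _) (by norm_num)
          _ = _ := one_mul _
      have h8 : |(Real.sinc (Real.pi * c * (m * w)) * smI w c m) *
          (F - SM B0 (fun _ => 1) q m)| ≤ (Real.pi * c * w) * (p * F) := by
        rw [abs_mul]
        exact mul_le_mul h7 h5 (abs_nonneg _) (by positivity)
      have h9 := (abs_le.mp h8).2
      linarith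
    have h10 := Finset.sum_le_sum h4
    refine le_trans ?_ h10
    rw [Finset.sum_sub_distrib, ← Finset.sum_mul, Finset.sum_const, nsmul_eq_mul, Nat.card_Icc]
    have h11 : ((M0 + 1 - 2 : ℕ) : ℝ) ≤ M0 := by
      exact_mod_cast (by omega : M0 + 1 - 2 ≤ M0)
    have h12 : (J - e) * F ≤ (∑ m ∈ Finset.Icc 2 M0,
        Real.sinc (Real.pi * c * (m * w)) * smI w c m) * F :=
      mul_le_mul_of_nonneg_right g2.le hSFpos'.le
    have h13 : ((M0 + 1 - 2 : ℕ) : ℝ) * ((Real.pi * c * w) * (p * F)) ≤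
        (Real.pi * A) * (p * F) := by
      calc ((M0 + 1 - 2 : ℕ) : ℝ) * ((Real.pi * c * w) * (p * F)) ≤
          (M0 : ℝ) * ((Real.pi * c * w) * (p * F)) :=
            mul_le_mul_of_nonneg_right h11 (by positivity)
        _ = (Real.pi * (M0 * (c * w))) * (p * F) := by ring
        _ ≤ (Real.pi * A) * (p * F) := by
            apply mul_le_mul_of_nonneg_right _ (by positivity)
            exact mul_le_mul_of_nonneg_left hM0A hpi.le
    linarith
  have hfin : (2 - ε) * Real.sqrt c * F < 4 * r / Real.pi * ((J - e) * F - (Real.pi * A) * (p * F)) := by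
    have hsc : 0 < Real.sqrt c := Real.sqrt_pos.mpr hc0
    have hrlow : μ * Real.sqrt c ≤ r := by
      rw [hr, Real.sqrt_mul hμ0.le]
      apply mul_le_mul_of_nonneg_right _ hsc.le
      apply Real.le_sqrt_of_sq_le
      nlinarith
    have h4 : Real.pi / 2 * (2 - 8 * e) / 2 ≤ J - e - Real.pi * (p * A) := by
      have h5 : Real.pi * (p * A) ≤ Real.pi * e := mul_le_mul_of_nonneg_left hpA hpi.le
      nlinarith
    have h6 : 4 * r / Real.pi * ((J - e) * F - (Real.pi * A) * (p * F)) =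
        4 * r / Real.pi * (J - e - Real.pi * (p * A)) * F := by ring
    rw [h6]
    apply mul_lt_mul_of_pos_right _ hSFpos'
    have h7 : r * (2 - 8 * e) ≤ 4 * r / Real.pi * (J - e - Real.pi * (p * A)) := by
      have h8 : 4 * r / Real.pi * (Real.pi / 2 * (2 - 8 * e) / 2) = r * (2 - 8 * e) := by
        field_simp
        ring
      rw [← h8]
      exact mul_le_mul_of_nonneg_left h4 (by positivity)
    refine lt_of_lt_of_le ?_ h7
    have h9 : μ * Real.sqrt c * (2 - 8 * e) ≤ r * (2 - 8 * e) :=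
      mul_le_mul_of_nonneg_right hrlow (by linarith)
    refine lt_of_lt_of_le ?_ h9
    have h10 : 2 - ε < μ * (2 - 8 * e) := by
      rw [hμ]
      nlinarith
    calc (2 - ε) * Real.sqrt c < (μ * (2 - 8 * e)) * Real.sqrt c :=
          mul_lt_mul_of_pos_right h10 hsc
      _ = μ * Real.sqrt c * (2 - 8 * e) := by ring
  refine lt_of_lt_of_le hfin ?_
  exact mul_le_mul_of_nonneg_left hlow (by positivity)

end RGap
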